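import Pool.Agent.V1186.Torus.Sigma

set_option autoImplicit false

/-!
# MP_ae59d5_an: maximizers of the distance energies `I_α` on the flat torus

The torus is `UnitAddCircle × UnitAddCircle`, with the distance `torusDist` (the square root of the
sum of the squares of the two circle distances; `torusDist_isLeast` proves that it is the minimum
over `k ∈ ℤ²` of the Euclidean norms `‖x - y + k‖`).

The main theorem determines *all* maximizers of `I_α` for every `α ≥ 1`:

* `1 ≤ α < 2`: exactly the uniform probability measures on the cosets of the four element group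
  `{0,1/2}²`;
* `α = 2`: exactly the balanced measures
  `s (δ_u + δ_{u+(1/2,1/2)}) + (1/2 - s) (δ_{u+(1/2,0)} + δ_{u+(0,1/2)})`, `0 ≤ s ≤ 1/2`;
* `α > 2`: exactly the measures `ν_p = 1/2 (δ_p + δ_{p+(1/2,1/2)})`;

and it shows that for every `α > 0` the measure `ν_p` is a maximizer iff `α ≥ 2`, and that the
uniform measure `σ` is a maximizer for no `α > 0`.
-/

namespace Pool.Agent.Results.MP_ae59d5_an.PhaseDiagram

open MeasureTheory Set Topology
open scoped ENNReal

/-- the flat torus `ℝ²/ℤ²` -/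
abbrev Torus : Type := UnitAddCircle × UnitAddCircle

/-- the quotient distance of the flat torus (see `torusDist_isLeast`) -/
noncomputable def torusDist (x y : Torus) : ℝ := √(‖x.1 - y.1‖ ^ 2 + ‖x.2 - y.2‖ ^ 2)

/-- the energy `I_α(μ) = ∬ ρ(x,y)^α dμ(x) dμ(y)` -/
noncomputable def energy (α : ℝ) (μ : Measure Torus) : ℝ := ∫ x, ∫ y, torusDist x y ^ α ∂μ ∂μ

/-- `μ` maximizes `I_α` among the Borel probability measures on the torus -/
def IsMaximizer (α : ℝ) (μ : Measure Torus) : Prop :=
  IsProbabilityMeasure μ ∧ ∀ ν : Measure Torus, IsProbabilityMeasure ν → energy α ν ≤ energy α μ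

/-- the point `1/2` of the circle -/
noncomputable def half : UnitAddCircle := ((1/2 : ℝ) : UnitAddCircle)

/-- `ν_p = 1/2 (δ_p + δ_{p*})` -/
noncomputable def nu (p : Torus) : Measure Torus :=
  (2⁻¹ : ℝ≥0∞) • (Measure.dirac p + Measure.dirac (p + (half, half)))

/-- uniform probability measure on the coset `u + {0,1/2}²` -/
noncomputable def cosetMeasure (u : Torus) : Measure Torus :=
  (4⁻¹ : ℝ≥0∞) • (Measure.dirac u + Measure.dirac (u + (half, 0)) + Measure.dirac (u + (0, half)) +
    Measure.dirac (u + (half, half)))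

/-- the balanced measure `s (δ_u + δ_{u+(1/2,1/2)}) + (1/2 - s) (δ_{u+(1/2,0)} + δ_{u+(0,1/2)})` -/
noncomputable def balanced (u : Torus) (s : ℝ) : Measure Torus :=
  ENNReal.ofReal s • (Measure.dirac u + Measure.dirac (u + (half, half))) +
    ENNReal.ofReal (1/2 - s) • (Measure.dirac (u + (half, 0)) + Measure.dirac (u + (0, half)))

/-- the uniform probability measure on the torus -/
noncomputable def sigma : Measure Torus := volume

/-- `torusDist` is the minimum of the Euclidean norms `‖a - b + k‖`, `k ∈ ℤ²`. -/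
theorem torusDist_isLeast (a b : ℝ × ℝ) :
    IsLeast {r : ℝ | ∃ k l : ℤ, r = √((a.1 - b.1 + k) ^ 2 + (a.2 - b.2 + l) ^ 2)}
      (torusDist ((a.1 : UnitAddCircle), (a.2 : UnitAddCircle))
        ((b.1 : UnitAddCircle), (b.2 : UnitAddCircle))) := by
  have h1 : ∀ s t : ℝ, ‖(s : UnitAddCircle) - (t : UnitAddCircle)‖ = |s - t - round (s - t)| := by
    intro s t
    rw [← AddCircle.coe_sub, UnitAddCircle.norm_eq]
  unfold torusDist
  simp only [h1, sq_abs]
  constructor
  · refine ⟨-round (a.1 - b.1), -round (a.2 - b.2), ?_⟩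
    push_cast
    ring_nf
  · rintro r ⟨k, l, rfl⟩
    apply Real.sqrt_le_sqrt
    have h2 : ∀ (t : ℝ) (m : ℤ), (t - round t) ^ 2 ≤ (t + m) ^ 2 := by
      intro t m
      have := round_le t (-m)
      push_cast at this
      rw [sub_neg_eq_add] at this
      rw [← sq_abs, ← sq_abs (t + m)]
      exact pow_le_pow_left₀ (abs_nonneg _) this 2
    exact add_le_add (h2 _ _) (h2 _ _)

theorem balanced_eq (u : Torus) (s : ℝ) : balanced u s = V1186.Torus.mix u s := by
  unfold balanced V1186.Torus.mix V1186.Torus.four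
  rw [smul_add, smul_add]
  show _ + _ + (_ + _) = _ + _ + _ + _
  have h : half = V1186.Torus.hf := rfl
  rw [h]
  abel

theorem nu_eq (p : Torus) : nu p = V1186.Torus.mix p (1/2) := by
  rw [← balanced_eq]
  unfold nu balanced
  have e : ENNReal.ofReal (1/2) = 2⁻¹ := by
    rw [one_div, ENNReal.ofReal_inv_of_pos (by norm_num)]; norm_num
  rw [e, sub_self, ENNReal.ofReal_zero, zero_smul, add_zero]

theorem coset_eq (u : Torus) : cosetMeasure u = V1186.Torus.mix u (1/4) := by
  rw [← balanced_eq]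
  unfold cosetMeasure balanced
  have e : ENNReal.ofReal (1/4) = 4⁻¹ := by
    rw [one_div, ENNReal.ofReal_inv_of_pos (by norm_num)]; norm_num
  have e2 : (1/2 - 1/4 : ℝ) = 1/4 := by norm_num
  rw [e2, e, ← smul_add]
  congr 1
  abel

theorem isMaximizer_iff (α : ℝ) (μ : Measure Torus) :
    IsMaximizer α μ ↔ V1186.Torus.IsMax α μ := Iff.rfl

theorem sigma_eq : sigma = (volume : Measure UnitAddCircle).prod (volume : Measure UnitAddCircle) := rfl

/-- **The phase diagram of the maximizers of `I_α` on the flat torus.** -/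
theorem result :
    (∀ α : ℝ, 1 ≤ α → α < 2 → ∀ μ : Measure Torus,
      (IsMaximizer α μ ↔ ∃ u : Torus, μ = cosetMeasure u)) ∧
    (∀ μ : Measure Torus,
      (IsMaximizer 2 μ ↔ ∃ u : Torus, ∃ s : ℝ, 0 ≤ s ∧ s ≤ 1/2 ∧ μ = balanced u s)) ∧
    (∀ α : ℝ, 2 < α → ∀ μ : Measure Torus, (IsMaximizer α μ ↔ ∃ p : Torus, μ = nu p)) ∧
    (∀ α : ℝ, 0 < α → ∀ p : Torus, (IsMaximizer α (nu p) ↔ 2 ≤ α)) ∧
    (∀ α : ℝ, 0 < α → ¬ IsMaximizer α sigma) ∧
    (∀ α : ℝ, 1 ≤ α → α ≤ 2 → ∀ u : Torus,
      IsMaximizer α (cosetMeasure u) ∧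
      energy α (cosetMeasure u) = (2 * (1/2 : ℝ) ^ α + √(1/2 : ℝ) ^ α) / 4) := by
  refine ⟨?_, ?_, ?_, ?_, ?_, ?_⟩
  · intro α h1 h2 μ
    rw [isMaximizer_iff, V1186.Torus.isMax_lt_two h1 h2]
    simp only [coset_eq]
  · intro μ
    rw [isMaximizer_iff, V1186.Torus.isMax_two]
    simp only [balanced_eq]
  · intro α h2 μ
    rw [isMaximizer_iff, V1186.Torus.isMax_gt_two h2]
    simp only [nu_eq]
  · intro α hα p
    rw [isMaximizer_iff, nu_eq]
    exact V1186.Torus.isMax_nu hα p
  · intro α hα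
    rw [isMaximizer_iff, sigma_eq]
    exact V1186.Torus.sigma_not_max hα
  · intro α h1 h2 u
    constructor
    · rw [isMaximizer_iff, coset_eq]
      rcases lt_or_eq_of_le h2 with h | h
      · exact (V1186.Torus.isMax_lt_two h1 h _).2 ⟨u, rfl⟩
      · rw [h]
        exact (V1186.Torus.isMax_two _).2 ⟨u, 1/4, by norm_num, by norm_num, rfl⟩
    · rw [coset_eq]
      show V1186.Torus.En α _ = _
      rw [V1186.Torus.mix_En u (by norm_num) (by norm_num) (by linarith)]
      unfold V1186.Torus.pp V1186.Torus.qq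
      ring

end Pool.Agent.Results.MP_ae59d5_an.PhaseDiagram
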